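import Pool.Agent.Work.MP_baf0bc_nt.Zn.Eng

/-! Words which are concatenations of the blocks 0, 100, 10100000 (an automaton with eight states
and a dead state): number of words and threefold additive energy of their values. -/

set_option autoImplicit false

open Finset Polynomial

namespace Pool.Agent.Work.MP_baf0bc_nt.Zn

def d0 : Fin 9 → Fin 9 := ![0, 2, 0, 4, 5, 6, 7, 0, 8]

def d1 : Fin 9 → Fin 9 := ![1, 8, 3, 8, 8, 8, 8, 8, 8]

/-- Generating polynomial of the values of the accepted words. -/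
noncomputable def PP : ℕ → Fin 9 → ℕ[X]
  | 0, s => if s = 8 then 0 else 1
  | n + 1, s => expand ℕ 2 (PP n (d0 s)) + X ^ 3 ^ n * expand ℕ 2 (PP n (d1 s))

theorem PP_deg (n : ℕ) (s : Fin 9) : (PP n s).natDegree ≤ 3 ^ n := by
  induction n generalizing s with
  | zero => unfold PP; split_ifs <;> simp
  | succ n ih =>
    have h0 := ih (d0 s)
    have h1 := ih (d1 s)
    refine natDegree_add_le_of_degree_le ?_ (natDegree_mul_le.trans ?_) <;>
      simp only [natDegree_expand, natDegree_X_pow, pow_succ] <;> omega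

def ph : Fin 9 → ℕ := ![10000, 5014, 7530, 1309, 1966, 2952, 4433, 6658, 0]

theorem PP_eval (n : ℕ) (s : Fin 9) : (((PP n s).eval 1 : ℕ) : ℝ) ≤ (751 / 500) ^ n * ph s := by
  induction n generalizing s with
  | zero => fin_cases s <;> simp [PP, ph]
  | succ n ih =>
    have h : 500 * (ph (d0 s) + ph (d1 s)) ≤ 751 * ph s := by revert s; decide
    have h' : (500 : ℝ) * (ph (d0 s) + ph (d1 s)) ≤ 751 * ph s := by exact_mod_cast h
    have e : ∀ q : ℕ[X], (expand ℕ 2 q).eval 1 = q.eval 1 := fun q => by simp [expand_eval]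
    rw [PP, eval_add, eval_mul, e, e, pow_succ]
    simp only [eval_pow, eval_X, one_pow, one_mul, Nat.cast_add]
    nlinarith [ih (d0 s), ih (d1 s), mul_le_mul_of_nonneg_left h'
      (by positivity : (0 : ℝ) ≤ (751 / 500) ^ n)]

abbrev St := Fin 9 × Fin 9 × Fin 9

def LL : ℕ → St → List St
  | 0, (a, b, c) => [(d0 a, d0 b, d0 c)]
  | 1, (a, b, c) => [(d1 a, d0 b, d0 c), (d0 a, d1 b, d0 c), (d0 a, d0 b, d1 c)]
  | 2, (a, b, c) => [(d0 a, d1 b, d1 c), (d1 a, d0 b, d1 c), (d1 a, d1 b, d0 c)]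
  | _, (a, b, c) => [(d1 a, d1 b, d1 c)]

def sm {M : Type} [AddMonoid M] (e : ℕ) (f : St → M) (A : St) : M := ((LL e A).map f).sum

noncomputable def QQ (n : ℕ) (A : St) : ℕ[X] := PP n A.1 * PP n A.2.1 * PP n A.2.2

theorem QQ_succ (n : ℕ) (A : St) :
    QQ (n + 1) A = ∑ e ∈ range 4, X ^ (e * 3 ^ n) * expand ℕ 2 (sm e (QQ n) A) := by
  obtain ⟨a, b, c⟩ := A
  simp only [sum_range_succ, sum_range_zero, sm, LL, QQ, PP, List.map, List.sum_cons, List.sum_nil,
    map_add, map_mul, map_zero, pow_mul']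
  ring

theorem J_succ (c : ℤ) (n : ℕ) (A B : St) : J (c * 3 ^ (n + 1)) (QQ (n + 1) A) (QQ (n + 1) B) =
    ∑ e ∈ range 4, ∑ e' ∈ range 4, if (3 * c + e - e') % 2 = 0 then
      J ((3 * c + e - e') / 2 * 3 ^ n) (sm e (QQ n) A) (sm e' (QQ n) B) else 0 := by
  simp only [QQ_succ n, map_sum, LinearMap.sum_apply, J_step]
  exact sum_comm

theorem J_sm {k : ℤ} {Q : St → ℕ[X]} {μ : ℝ} {f g : St → ℕ}
    (h : ∀ A B, (J k (Q A) (Q B) : ℝ) ≤ μ * f A * g B) (e e' : ℕ) (A B : St) :
    (J k (sm e Q A) (sm e' Q B) : ℝ) ≤ μ * (sm e f A : ℕ) * (sm e' g B : ℕ) := by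
  unfold sm
  induction LL e A with
  | nil => simp
  | cons a l ih =>
    have : (J k (Q a) ((LL e' B).map Q).sum : ℝ) ≤ μ * f a * (((LL e' B).map g).sum : ℕ) := by
      induction LL e' B with
      | nil => simp
      | cons b l ih =>
        simp only [List.map_cons, List.sum_cons, map_add, Nat.cast_add]
        linarith [h a b]
    simp only [List.map_cons, List.sum_cons, map_add, LinearMap.add_apply, Nat.cast_add]
    linarith

theorem J_far (n : ℕ) : ∀ c : ℤ, 2 ≤ c → ∀ A B, J (c * 3 ^ n) (QQ n A) (QQ n B) = 0 := by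
  induction n with
  | zero =>
    intro c hc A B
    have h : J (c * 3 ^ 0) 1 1 = 0 := (J_mon _ 0 0 1 1).trans (if_neg (by omega))
    simp only [QQ, PP]
    split_ifs <;> simp only [mul_one, mul_zero, zero_mul, map_zero, LinearMap.zero_apply, h]
  | succ n ih =>
    intro c hc A B
    rw [J_succ]
    refine sum_eq_zero fun e _ => sum_eq_zero fun e' he => ?_
    rw [mem_range] at he
    split_ifs with h
    · have := J_sm (μ := 0) (f := 0) (g := 0) (fun A B => by
        rw [ih ((3 * c + e - e') / 2) (by omega) A B]; simp) e e' A B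
      simpa using this
    · rfl

def ps (A : St) : ℕ := if A.1 = 8 ∨ A.2.1 = 8 ∨ A.2.2 = 8 then 0 else
  (0x1c01370df0a30751c81612011370e60a207505513d0fd1690df0a207d0590400e30b21040a30750590460320a60820bd07505504003202707805f0881c813d0e30a60781e11682341610fd0b208205f16811b1962011691040bd0882341962b61370e60a207505513d0fd1690e60c908c0640490ec0cd1170a208c0670490350a708e0c607506404903802807806608e05504903502802005804b06713d0ec0a707805814f10318d0fd0cd08e06604b1030d812c1691170c608e06718d12c1f00df0a207d0590400e30b21040a208c0670490350a708e0c607d06705a03f02d08206a09b05904903f02f02105c04b06e04003502d02101a04303604f0e30a708205c0430f10b71210b208e06a04b0360b70960d51040c609b06e04f1210d516a0a30750590460320a60820bd07506404903802807806608e05904903f02f02105c04b06e04603802f02901d04903b05503202802101d01603402a03c0a607805c0490340b20850d208206604b03b02a08506c09a0bd08e06e05503c0d209a10407505504003202707805f08805504903502802005804b06704003502d02101a04303604f03202802101d0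1603402a03c02702001a01601302902102f07805804303402908106109805f04b03602a02106105007008806704f03c02f0980700bb1c813d0e30a60781e116823413d0ec0a707805814f10318d0e30a708205c0430f10b71210a607805c0490340b20850d20780580430340290810610981e114f0f10b208120a17b2771681030b708506117b1211bf23418d1210d20982771bf3131610fd0b208205f16811b1960fd0cd08e06604b1030d812c0b208e06a04b0360b70960d508206604b03b02a08506c09a05f04b03602a0210610500701681030b708506117b1211bf11b0d809606c0501210ea14a19612c0d509a0701bf14a22a2011691040bd0882341962b61691170c608e06718d12c1f01040c609b06e04f1210d516a0bd08e06e05503c0d209a10408806704f03c02f0980700bb23418d1210d20982771bf31319612c0d509a0701bf14a22a2b61f016a1040bb31322a3e8 : ℕ) >>> (12 * (64 * A.1.1 + 8 * A.2.1.1 + A.2.2.1)) % 4096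

theorem ps_cert : ∀ A : St, 100 * (499 * (sm 0 ps A ^ 2 + sm 1 ps A ^ 2 + sm 2 ps A ^ 2 +
      sm 3 ps A ^ 2) + 200 * (sm 2 (sm 0 ps) A * sm 0 (sm 3 ps) A)) ≤ 499 ^ 2 * ps A ^ 2 ∧
    sm 1 (sm 3 ps) A = 0 ∧ sm 2 (sm 3 ps) A = 0 ∧ sm 3 (sm 3 ps) A = 0 ∧
    (A.1 = 8 ∨ A.2.1 = 8 ∨ A.2.2 = 8 ∨ 1 ≤ ps A) := by
  decide +kernel

theorem energy (n : ℕ) :
    (∀ A B, (J 0 (QQ n A) (QQ n B) : ℝ) ≤ (499 / 100) ^ n * ps A * ps B) ∧ ∀ A B,
      (J (3 ^ n) (QQ n A) (QQ n B) : ℝ) ≤
        (499 / 100) ^ n / (499 / 100) * (sm 0 ps A : ℕ) * (sm 3 ps B : ℕ) := by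
  have cs : ∀ (n : ℕ), (∀ A, (J 0 (QQ n A) (QQ n A) : ℝ) ≤ (499 / 100) ^ n * ps A ^ 2) →
      ∀ A B, (J 0 (QQ n A) (QQ n B) : ℝ) ≤ (499 / 100) ^ n * ps A * ps B := fun n h A B => by
    refine le_of_pow_le_pow_left₀ two_ne_zero (by positivity) ?_
    rw [← Nat.cast_pow]
    refine (Nat.cast_le.2 (J_cs _ _)).trans ?_
    rw [Nat.cast_mul]
    exact (mul_le_mul (h A) (h B) (Nat.cast_nonneg _) (by positivity)).trans_eq (by ring)
  induction n with
  | zero =>
    have h0 : J 0 1 1 = 1 := (J_mon _ 0 0 1 1).trans (if_pos rfl)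
    have h1 : J 1 1 1 = 0 := (J_mon _ 0 0 1 1).trans (if_neg (by omega))
    refine ⟨cs 0 fun A => ?_, fun A B => le_trans (le_of_eq ?_) (by positivity : (0 : ℝ) ≤ _)⟩
    · have := (ps_cert A).2.2.2.2
      simp only [QQ, PP]
      split_ifs <;> simp_all
    · simp only [QQ, PP]
      split_ifs <;> simp [h1]
  | succ n ih =>
    have a0 := J_sm ih.1
    have a1 := J_sm ih.2
    have a2 : ∀ c : ℤ, 2 ≤ c → ∀ e e' A B, J (c * 3 ^ n) (sm e (QQ n) A) (sm e' (QQ n) B) = 0 :=
      fun c hc e e' A B => by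
        simpa using J_sm (μ := 0) (f := 0) (g := 0) (fun A B => by
          rw [J_far n c hc A B]; simp) e e' A B
    have p0 : (0 : ℝ) ≤ (499 / 100) ^ n := by positivity
    refine ⟨cs _ fun A => ?_, fun A B => ?_⟩
    · obtain ⟨c0, c1, -⟩ := ps_cert A
      have c0' : (100 : ℝ) * (499 * ((sm 0 ps A : ℕ) ^ 2 + (sm 1 ps A : ℕ) ^ 2 + (sm 2 ps A : ℕ) ^ 2 +
        (sm 3 ps A : ℕ) ^ 2) + 200 * ((sm 2 (sm 0 ps) A : ℕ) * (sm 0 (sm 3 ps) A : ℕ))) ≤
          499 ^ 2 * ps A ^ 2 := by exact_mod_cast c0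
      have h := J_succ 0 n A A
      have b1 := a1 3 1 A A
      rw [c1] at b1
      norm_num [sum_range_succ, J_symm (-3 ^ n)] at h
      rw [h, pow_succ]
      push_cast at b1 ⊢
      linarith [a0 0 0 A A, a0 1 1 A A, a0 2 2 A A, a0 3 3 A A, a1 2 0 A A,
        mul_le_mul_of_nonneg_left c0' p0]
    · obtain ⟨-, c1, c2, c3, -⟩ := ps_cert B
      have h := J_succ 1 n A B
      have b1 := a1 0 1 A B
      have b2 := a1 1 2 A B
      have b3 := a1 2 3 A B
      rw [c1] at b1
      rw [c2] at b2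
      rw [c3] at b3
      norm_num [sum_range_succ, a2] at h
      rw [h, pow_succ]
      push_cast at b1 b2 b3 ⊢
      linarith [a0 0 3 A B]

/-- Upper bounds for the orbit of the multiplication by 3/2 modulo one. -/
noncomputable def ub : Fin 9 → ℝ := ![1, 1 / 2, 3 / 4, 1 / 8, 3 / 16, 9 / 32, 27 / 64, 81 / 128, 0]

theorem acc (n : ℕ) : ∀ (s : Fin 9) (x : ℕ) (t : ℕ → ℝ),
    (∀ i, 0 ≤ t i ∧ t i < 1 ∧ t (i + 1) = 3 / 2 * t i - (T^[i] x % 2 : ℕ)) → t 0 < ub s →
      (PP n s).coeff (sg n x) ≠ 0 := by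
  induction n with
  | zero =>
    intro s x t h h0
    have : s ≠ 8 := by
      rintro rfl
      exact absurd h0 (not_lt.2 (h 0).1)
    simp [PP, sg, this]
  | succ n ih =>
    intro s x t h h0
    have h1 := (h 0).2.2
    have h2 := h 1
    rw [PP, sg, coeff_add]
    rcases Nat.mod_two_eq_zero_or_one x with e | e <;>
      simp only [Function.iterate_zero_apply, e, zero_add, Nat.cast_zero, Nat.cast_one] at h1
    · rw [e, zero_mul, zero_add, coeff_expand_mul' two_pos]
      refine fun k => ih (d0 s) (T x) (fun i => t (i + 1)) (fun i => h (i + 1)) ?_ (by omega)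
      fin_cases s <;> simp [ub, d0] at h0 ⊢ <;> linarith [h2.2.1]
    · rw [e, one_mul, add_comm (3 ^ n), coeff_X_pow_mul, coeff_expand_mul' two_pos]
      refine fun k => ih (d1 s) (T x) (fun i => t (i + 1)) (fun i => h (i + 1)) ?_ (by omega)
      fin_cases s <;> simp [ub, d1] at h0 ⊢ <;> linarith [h2.2.1]

end Pool.Agent.Work.MP_baf0bc_nt.Zn
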