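import Pool.Agent.Work.MP_baf0bc_nt.Zn.Eng

/-! All words: additive energy of the values, concatenation of windows, and the bound for the
window which starts at position `L`. -/

set_option autoImplicit false

open Finset Polynomial Real Filter

namespace Pool.Agent.Work.MP_baf0bc_nt.Zn

theorem sg_add (n l x : ℕ) : sg (n + l) x = 3 ^ l * sg n x + 2 ^ n * sg l (T^[n] x) := by
  have h1 := sg_spec (n + l) x
  rw [add_comm n l, Function.iterate_add_apply, pow_add, mul_comm (2 ^ l), mul_assoc, sg_spec,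
    mul_add, mul_left_comm, sg_spec, pow_add, add_comm l n] at h1
  linarith

theorem sg_congr {n x y : ℕ} (h : ∀ i < n, T^[i] x % 2 = T^[i] y % 2) : sg n x = sg n y := by
  induction n generalizing x y with
  | zero => rfl
  | succ n ih =>
    rw [sg, sg, ih fun i hi => h (i + 1) (by omega)]
    exact congrArg (· * _ + _) (h 0 (by omega))

/-- Concatenation of a window of length `n` and a window of length `l`. -/
noncomputable def cat (n l : ℕ) (P K : ℕ[X]) : ℕ[X] := expand ℕ (3 ^ l) P * expand ℕ (2 ^ n) K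

theorem cat_eval (n l : ℕ) (P K : ℕ[X]) : (cat n l P K).eval 1 = P.eval 1 * K.eval 1 := by
  simp [cat, expand_eval]

theorem cat_coeff (n l : ℕ) (P K : ℕ[X]) (x : ℕ) :
    P.coeff (sg n x) * K.coeff (sg l (T^[n] x)) ≤ (cat n l P K).coeff (sg (n + l) x) := by
  rw [cat, coeff_mul, ← coeff_expand_mul' (p := 3 ^ l) (by positivity) P,
    ← coeff_expand_mul' (p := 2 ^ n) (by positivity) K]
  exact single_le_sum (f := fun p : ℕ × ℕ => (expand ℕ (3 ^ l) P).coeff p.1 *
    (expand ℕ (2 ^ n) K).coeff p.2) (a := (_, _)) (fun _ _ => Nat.zero_le _)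
    (mem_antidiagonal.2 (sg_add n l x).symm)

/-- Generating polynomial of the values of all words. -/
noncomputable def FC : ℕ → ℕ[X]
  | 0 => 1
  | n + 1 => cat n 1 (FC n) (1 + X)

theorem FC_eval (n : ℕ) : (FC n).eval 1 = 2 ^ n := by
  induction n with
  | zero => simp [FC]
  | succ n ih => simp [FC, cat_eval, ih, pow_succ]

theorem FC_coeff (n x : ℕ) : 1 ≤ (FC n).coeff (sg n x) := by
  induction n with
  | zero => simp [FC, sg]
  | succ n ih =>
    refine le_trans (one_le_mul ih ?_) (cat_coeff n 1 _ _ x)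
    rcases Nat.mod_two_eq_zero_or_one (T^[n] x) with e | e <;> simp [sg, e, coeff_one, coeff_X]

theorem FC_succ (n : ℕ) : FC (n + 1) = (1 + X ^ 2 ^ n) * expand ℕ 3 (FC n) := by
  simp [FC, cat, mul_comm]

theorem FC_deg (n : ℕ) : (FC n).natDegree + 2 ^ n ≤ 3 ^ n := by
  induction n with
  | zero => simp [FC]
  | succ n ih =>
    have h := natDegree_mul_le (p := (1 + X ^ 2 ^ n : ℕ[X])) (q := expand ℕ 3 (FC n))
    have h1 : (1 + X ^ 2 ^ n : ℕ[X]).natDegree ≤ 2 ^ n :=
      natDegree_add_le_of_degree_le (by simp) (by simp)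
    rw [natDegree_expand] at h
    rw [FC_succ, pow_succ, pow_succ]
    omega

theorem J_shift (k : ℤ) (a : ℕ) (Q R : ℕ[X]) : J k (X ^ a * Q) R = J (k + a) Q R := by
  induction Q using Polynomial.induction_on' with
  | add p q hp hq => simp only [map_add, mul_add, LinearMap.add_apply, hp, hq]
  | monomial i b =>
    induction R using Polynomial.induction_on' with
    | add p q hp hq => simp only [map_add, hp, hq]
    | monomial j c =>
      rw [X_pow_mul_monomial, J_mon, J_mon]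
      exact if_congr (by omega) rfl rfl

theorem J_three (k : ℤ) (Q R : ℕ[X]) :
    J k (expand ℕ 3 Q) (expand ℕ 3 R) = if k % 3 = 0 then J (k / 3) Q R else 0 := by
  induction Q using Polynomial.induction_on' with
  | add p q hp hq =>
    simp only [map_add, LinearMap.add_apply, hp, hq]
    split_ifs <;> rfl
  | monomial i a =>
    induction R using Polynomial.induction_on' with
    | add p q hp hq =>
      simp only [map_add, hp, hq]
      split_ifs <;> rfl
    | monomial j b =>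
      rw [expand_monomial, expand_monomial, J_mon, J_mon]
      split_ifs <;> first | rfl | omega

theorem J_binom {u M : ℕ} (hu : u % 3 ≠ 0) {Q : ℕ[X]}
    (h : ∀ k, J k Q Q ≤ if k % 3 = 0 then M else 0) (r : ℕ) (k : ℤ) :
    3 * J k ((1 + X ^ u) ^ r * Q) ((1 + X ^ u) ^ r * Q) + M ≤
      4 ^ r * M + if k % 3 = 0 then 3 * M else 0 := by
  induction r generalizing k with
  | zero =>
    have := h k
    rw [pow_zero, pow_zero, one_mul, one_mul]
    split_ifs at this ⊢ <;> omega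
  | succ r ih =>
    have h1 := ih k
    have h2 := ih (k + u)
    have h3 := ih (k - u)
    rw [pow_succ', mul_assoc, pow_succ', mul_assoc]
    generalize (1 + X ^ u) ^ r * Q = R at h1 h2 h3
    have e : ∀ k, J k R (X ^ u * R) = J (k - u) R R := fun k => by
      rw [J_symm, J_shift, J_symm, neg_add, neg_neg, sub_eq_add_neg]
    simp only [add_mul, one_mul, map_add, LinearMap.add_apply, J_shift, e, add_sub_cancel_right]
    split_ifs at h1 h2 h3 ⊢ <;> omega

theorem FC_energy (r n : ℕ) (k : ℤ) : 3 ^ n * J k (FC n ^ r) (FC n ^ r) ≤ (4 ^ r + 2) ^ n := by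
  have d3 : 3 * ((4 ^ r + 2) / 3) = 4 ^ r + 2 := by
    have := Nat.pow_mod 4 r 3
    simp only [Nat.reduceMod, one_pow] at this
    omega
  rw [← d3, mul_pow]
  refine Nat.mul_le_mul_left _ ?_
  induction n generalizing k with
  | zero =>
    rw [FC, one_pow, ← monomial_zero_one, J_mon]
    split_ifs <;> simp
  | succ n ih =>
    have hu : 2 ^ n % 3 ≠ 0 := fun h => absurd (Nat.prime_three.dvd_of_dvd_pow
      (Nat.dvd_of_mod_eq_zero h)) (by norm_num)
    have := J_binom hu (Q := expand ℕ 3 (FC n ^ r)) (M := ((4 ^ r + 2) / 3) ^ n) (fun k => by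
      rw [J_three]
      split_ifs
      exacts [ih _, le_rfl]) r k
    rw [FC_succ, mul_pow, ← map_pow, pow_succ]
    refine Nat.le_of_mul_le_mul_left ?_ three_pos
    rw [mul_left_comm, d3]
    rw [mul_add, mul_comm _ (4 ^ r)]
    split_ifs at this <;> omega

theorem beyond {r : ℕ} (hr : 0 < r) {ε : ℝ} (hε : 0 < ε) : ∀ᶠ L : ℕ in atTop,
    ∀ (t : ℕ) (K : ℕ[X]) (Z : Finset ℕ), 4 ^ (r * t) ≤ 3 ^ L →
      (∀ x ∈ Z, x < 2 ^ L ∧ K.coeff (sg t (T^[L] x)) ≠ 0) → (Z.card : ℝ) ≤
        (K.eval 1 : ℕ) * (2 ^ L / 2 ^ t) * (1 + 2 / 4 ^ r + ε) ^ ((L : ℝ) / (2 * r)) := by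
  obtain ⟨a, ha⟩ : ∃ a : ℝ, a = 1 + 2 / 4 ^ r := ⟨_, rfl⟩
  have a1 : 1 ≤ a := ha ▸ le_add_of_nonneg_right (by positivity)
  obtain ⟨q, hq⟩ : ∃ q : ℝ, q = √((a + ε) / a) := ⟨_, rfl⟩
  have q1 : 1 < q := hq ▸ lt_sqrt_of_sq_lt (by rw [one_pow, one_lt_div (by linarith)]; linarith)
  have q2 : q * q * a = a + ε := by
    rw [hq, mul_self_sqrt (by positivity), div_mul_cancel₀ _ (by positivity)]
  have hw : Tendsto (fun L : ℕ => L / (2 * r)) atTop atTop := Nat.tendsto_div_const_atTop (by omega)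
  filter_upwards [hw.eventually (((engine hr (log_pos q1)).and
    ((tendsto_pow_atTop_atTop_of_one_lt q1).eventually_ge_atTop 32)).and
      (eventually_ge_atTop (2 * r + 5)))] with L ⟨⟨h, h32⟩, hw5⟩ t K Z ht hZ
  have m1 := Nat.div_add_mod L (2 * r)
  have m2 := Nat.mod_lt L (by omega : 0 < 2 * r)
  have m3 : ((L / (2 * r) : ℕ) : ℝ) ≤ L / (2 * r) := by exact_mod_cast Nat.cast_div_le
  generalize L / (2 * r) = w at *
  generalize L % (2 * r) = s at *
  have l1 := Nat.pow_log_le_self 2 (x := 3 ^ w) (by positivity)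
  have l2 := Nat.lt_pow_succ_log_self one_lt_two (3 ^ w)
  have l4 : Nat.log 2 (3 ^ w) ≤ 2 * w := (Nat.pow_le_pow_iff_right one_lt_two).1
    (l1.trans (by rw [pow_mul]; exact Nat.pow_le_pow_left (by norm_num) w))
  have l5 : 2 ^ t ≤ 3 ^ (w + 1) := by
    refine (Nat.pow_le_pow_iff_left (n := 2 * r) (by omega)).1 ?_
    rw [← pow_mul, ← pow_mul, mul_left_comm, pow_mul, mul_comm t]
    exact ht.trans (Nat.pow_le_pow_right three_pos (by nlinarith))
  have e : 2 ^ (Nat.log 2 (3 ^ w) + 5) = 2 ^ Nat.log 2 (3 ^ w) * 32 := pow_add _ _ _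
  rw [pow_succ] at l2 l5
  obtain ⟨u, hu⟩ := Nat.exists_eq_add_of_le
    ((Nat.pow_le_pow_iff_right one_lt_two).1 (by omega : 2 ^ t ≤ 2 ^ (Nat.log 2 (3 ^ w) + 5)))
  rw [hu] at e
  refine (h (s + t + u) (FC w) (cat (s + t) u (cat s t (FC s) K) (FC u)) Z (by omega)
    (le_trans (by omega) (Nat.pow_le_pow_right two_pos (by omega : t + u ≤ _)))
    (le_of_add_le_left (FC_deg w)) fun x hx => ⟨?_, fun l _ => Nat.one_le_iff_ne_zero.1
      (FC_coeff _ _), Nat.one_le_iff_ne_zero.1 ?_⟩).trans ?_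
  · rw [show 2 * r * w + (s + t + u) = t + u + L by omega, pow_add]
    exact Nat.mul_le_mul (by omega) (hZ x hx).1.le
  · refine le_trans (one_le_mul (le_trans (one_le_mul (FC_coeff _ _) ?_) (cat_coeff _ _ _ _ _))
      (FC_coeff _ _)) (cat_coeff _ _ _ _ _)
    rw [← Function.iterate_add_apply, add_comm s, m1]
    exact Nat.one_le_iff_ne_zero.2 (hZ x hx).2
  · have b1 : (3 : ℝ) ^ w * J 0 (FC w ^ r) (FC w ^ r) ≤ 2 ^ (2 * r * w) * a ^ w := by
      rw [pow_mul, ← mul_pow, ha, pow_mul, mul_add, mul_one, show (2 : ℝ) ^ 2 = 4 by norm_num,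
        mul_div_cancel₀ _ (by positivity)]
      exact_mod_cast FC_energy r w 0
    have b2 : (2 : ℝ) ^ u ≤ q ^ w * 3 ^ w / 2 ^ t := by
      have : ((2 ^ (t + u) : ℕ) : ℝ) ≤ (32 * 3 ^ w : ℕ) := Nat.cast_le.2 (by omega)
      push_cast at this
      rw [le_div_iff₀' (by positivity), ← pow_add]
      exact this.trans (mul_le_mul_of_nonneg_right h32 (by positivity))
    rw [mul_comm (log _), exp_nat_mul, exp_log (by linarith), cat_eval, cat_eval, FC_eval, FC_eval,
      ← ha]
    push_cast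
    calc _ ≤ q ^ w * (2 ^ s * (K.eval 1 : ℕ) * (q ^ w * 3 ^ w / 2 ^ t)) *
          (J 0 (FC w ^ r) (FC w ^ r) : ℝ) := by gcongr
      _ = (K.eval 1 : ℕ) * (2 ^ s / 2 ^ t) * (q * q) ^ w * (3 ^ w * J 0 (FC w ^ r) (FC w ^ r)) := by
          ring
      _ ≤ (K.eval 1 : ℕ) * (2 ^ s / 2 ^ t) * (q * q) ^ w * (2 ^ (2 * r * w) * a ^ w) := by gcongr
      _ = (K.eval 1 : ℕ) * (2 ^ L / 2 ^ t) * (a + ε) ^ (w : ℝ) := by
          rw [← m1, ← q2, rpow_natCast]
          ring
      _ ≤ _ := by gcongr; linarith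

end Pool.Agent.Work.MP_baf0bc_nt.Zn
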