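import Mathlib
import Pool.Agent.Lib.Subspace.Core
import Pool.Agent.Lib.LargeSieve.Additive

-- merged part: Pool.Agent.Work.MP_baf0bc_nt.Zn.Jf
section
/-! The map `T x = ⌈3 x / 2⌉`, the values of its parity words, and shifted inner products of
coefficient sequences. -/

set_option autoImplicit false

open Finset Polynomial

namespace Pool.Agent.Work.MP_baf0bc_nt.Zn

/-- `T x = ⌈3 x / 2⌉`. -/
def T (x : ℕ) : ℕ := (3 * x + 1) / 2

/-- The value `∑ a i * 2 ^ i * 3 ^ (n - 1 - i)` of the parity word of length `n`. -/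
def sg : ℕ → ℕ → ℕ
  | 0, _ => 0
  | n + 1, x => x % 2 * 3 ^ n + 2 * sg n (T x)

theorem two_T (x : ℕ) : 2 * T x = 3 * x + x % 2 := by
  unfold T
  omega

theorem sg_spec (n x : ℕ) : 2 ^ n * T^[n] x = 3 ^ n * x + sg n x := by
  induction n generalizing x with
  | zero => simp [sg]
  | succ n ih =>
    rw [Function.iterate_succ_apply, pow_succ', mul_assoc, ih, sg, mul_add, mul_left_comm, two_T]
    ring

/-- `J k Q R = ∑ Q i * R (k + i)`. -/
noncomputable def J (k : ℤ) : ℕ[X] →ₗ[ℕ] ℕ[X] →ₗ[ℕ] ℕ :=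
  (basisMonomials ℕ).constr ℕ fun i => (basisMonomials ℕ).constr ℕ fun j =>
    if k + i = j then 1 else 0

theorem J_mon (k : ℤ) (i j a b : ℕ) :
    J k (monomial i a) (monomial j b) = if k + i = j then a * b else 0 := by
  have e : ∀ i a : ℕ, monomial i a = a • basisMonomials ℕ i := fun i a => by
    simp [smul_monomial]
  rw [e, e, map_smul, map_smul, LinearMap.smul_apply, J, Module.Basis.constr_basis,
    Module.Basis.constr_basis]
  split_ifs <;> simp [mul_comm]

theorem J_symm (k : ℤ) (Q R : ℕ[X]) : J k Q R = J (-k) R Q := by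
  induction Q using Polynomial.induction_on' with
  | add p q hp hq => simp only [map_add, LinearMap.add_apply, hp, hq]
  | monomial i a =>
    induction R using Polynomial.induction_on' with
    | add p q hp hq => simp only [map_add, LinearMap.add_apply, hp, hq]
    | monomial j b =>
      rw [J_mon, J_mon, mul_comm]
      exact if_congr (by omega) rfl rfl

theorem J_step (c : ℤ) (n e e' : ℕ) (Q R : ℕ[X]) :
    J (c * 3 ^ (n + 1)) (X ^ (e * 3 ^ n) * expand ℕ 2 Q) (X ^ (e' * 3 ^ n) * expand ℕ 2 R) =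
      if (3 * c + e - e') % 2 = 0 then J ((3 * c + e - e') / 2 * 3 ^ n) Q R else 0 := by
  induction Q using Polynomial.induction_on' with
  | add p q hp hq =>
    simp only [map_add, mul_add, LinearMap.add_apply, hp, hq]
    split_ifs <;> rfl
  | monomial i a =>
    induction R using Polynomial.induction_on' with
    | add p q hp hq =>
      simp only [map_add, mul_add, hp, hq]
      split_ifs <;> rfl
    | monomial j b =>
      rw [expand_monomial, expand_monomial, X_pow_mul_monomial, X_pow_mul_monomial, J_mon, J_mon]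
      obtain ⟨u, hu⟩ : Odd ((3 : ℤ) ^ n) := Odd.pow (by decide)
      push_cast
      rw [pow_succ]
      obtain ⟨d, hd | hd⟩ := Int.even_or_odd' (3 * c + e - e')
      · rw [hd, if_pos (Int.mul_emod_right 2 d), Int.mul_ediv_cancel_left _ two_ne_zero]
        refine if_congr ⟨fun h => ?_, fun h => ?_⟩ rfl rfl
        · have : 2 * (d * 3 ^ n + i - j) = 0 := by linear_combination h - 3 ^ n * hd
          omega
        · linear_combination 2 * h + 3 ^ n * hd
      · rw [if_neg (c := _ % 2 = _) (by omega), if_neg fun h => ?_]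
        have : 2 * (d * 3 ^ n + u + i - j) + 1 = 0 := by linear_combination h - 3 ^ n * hd - hu
        omega

theorem J_zero {Q : ℕ[X]} {N : ℕ} (h : Q.natDegree < N) (R : ℕ[X]) :
    J 0 Q R = ∑ n ∈ range N, Q.coeff n * R.coeff n := by
  conv_lhs => rw [Q.as_sum_range' N h]
  rw [map_sum, LinearMap.sum_apply]
  refine sum_congr rfl fun n _ => ?_
  induction R using Polynomial.induction_on' with
  | add p q hp hq => rw [map_add, hp, hq, coeff_add, mul_add]
  | monomial j b =>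
    rw [J_mon, coeff_monomial, mul_ite, mul_zero]
    exact if_congr (by omega) rfl rfl

theorem J_cs (Q R : ℕ[X]) : J 0 Q R ^ 2 ≤ J 0 Q Q * J 0 R R := by
  have h1 : Q.natDegree < Q.natDegree + R.natDegree + 1 := by omega
  have h2 : R.natDegree < Q.natDegree + R.natDegree + 1 := by omega
  rw [J_zero h1, J_zero h1, J_zero h2]
  simpa only [sq] using sum_mul_sq_le_sq_mul_sq _ Q.coeff R.coeff

end Pool.Agent.Work.MP_baf0bc_nt.Zn
end

-- merged part: Pool.Agent.Work.MP_baf0bc_nt.Zn.Rid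
section
/-! A consequence of the theorem of Ridout: powers of 3 are badly approximable 2-adically. -/

set_option autoImplicit false

open Filter Real

namespace Pool.Agent.Work.MP_baf0bc_nt.Zn

open Pool.Agent.Lib.Subspace

theorem ridout (C : ℕ) {ε : ℝ} (hε : 0 < ε) : ∀ᶠ N : ℕ in atTop, ∀ (j v : ℕ) (b n : ℤ),
    j ≤ C * N → v ≤ C * N → b ≠ 0 → |(b : ℝ)| * exp (ε * N) < 3 ^ j → |b| < 2 ^ v →
    (2 : ℤ) ^ v ∣ b - 3 ^ j * n → (2 : ℝ) ^ v ≤ |(b : ℝ)| * |(n : ℝ)| * exp (ε * N) := by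
  by_contra h
  rw [not_eventually] at h
  obtain ⟨U, hU⟩ := Ultrafilter.exists_le (_ ⊓ 𝓟 _) (h := frequently_iff_neBot.1 h)
  rw [le_inf_iff, le_principal_iff] at hU
  let p2 : Nat.Primes := ⟨2, Nat.prime_two⟩
  let p3 : Nat.Primes := ⟨3, Nat.prime_three⟩
  have hne : p2 ≠ p3 := fun k => absurd (congrArg Subtype.val k) (by decide)
  refine core 2 {p2, p3} (3 * C + 1) ε ε (by positivity) hε hε U hU.1 fun σ hσ => ?_
  filter_upwards [hU.2] with N hN
  clear h hU
  simp only [Set.mem_ofPred_eq, not_forall, not_le] at hN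
  obtain ⟨j, v, b, n, hj, hv, hb, h3, h2, hd, hlt⟩ := hN
  have e0 : 1 ≤ exp (ε * N) := one_le_exp (by positivity)
  have b1 : (1 : ℝ) ≤ |(b : ℝ)| := by exact_mod_cast Int.one_le_abs hb
  have pw : ∀ (a : ℝ) (k : ℕ), 1 ≤ a → a ≤ 3 → k ≤ C * N → a ^ k ≤ exp (3 / 2 * C * N) := by
    intro a k a1 a3 hk
    have : a ≤ exp (3 / 2) := by
      have := quadratic_le_exp_of_nonneg (x := 3 / 2) (by norm_num)
      linarith only [a3, this]
    calc a ^ k ≤ a ^ (C * N) := pow_le_pow_right₀ a1 hk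
      _ ≤ exp (3 / 2) ^ (C * N) := pow_le_pow_left₀ (by linarith only [a1]) this _
      _ = _ := by rw [← exp_nat_mul]; push_cast; ring_nf
  have p2v := pw 2 v (by norm_num) (by norm_num) hv
  have p3j := pw 3 j (by norm_num) le_rfl hj
  have hE : exp (3 / 2 * C * N) * exp (3 / 2 * C * N) ≤ exp ((3 * C + 1) * N) := by
    rw [← exp_add]
    exact exp_le_exp.2 (by linarith only [Nat.cast_nonneg (α := ℝ) N])
  have e1 : 1 ≤ exp (3 / 2 * C * N) := one_le_exp (by positivity)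
  refine ⟨![b, 3 ^ j * n], fun ℓ => if ℓ = p2 then !![1, -1; 1, 0] else 1, fun ℓ _ => ?_,
    fun ℓ _ i k => ?_, fun i => ?_, ?_, fun c hc hs => ?_⟩
  · beta_reduce
    split_ifs <;> simp
  · refine le_trans ?_ (one_le_exp (by positivity))
    beta_reduce
    split_ifs <;> fin_cases i <;> fin_cases k <;> simp
  · have h2' : |(b : ℝ)| < 2 ^ v := by exact_mod_cast h2
    have n0 := abs_nonneg (n : ℝ)
    have hn : |(n : ℝ)| ≤ 2 ^ v := by
      nlinarith only [hlt, n0, b1, e0, mul_le_mul b1 e0 zero_le_one (by linarith)]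
    fin_cases i
    · simp only [Fin.zero_eta, Matrix.cons_val_zero]
      linarith only [b1, p2v, hE, h2', e1, mul_nonneg_of_nonpos_of_nonpos (Mathlib.Tactic.Linarith.sub_nonpos_of_le e1) (Mathlib.Tactic.Linarith.sub_nonpos_of_le e1)]
    · simp only [Fin.mk_one, Matrix.cons_val_one, Matrix.cons_val_zero]
      push_cast
      rw [abs_mul, abs_of_pos (by positivity : (0 : ℝ) < 3 ^ j)]
      exact (mul_le_mul p3j (hn.trans p2v) n0 (by positivity)).trans hE
  · have a1 := pad_le_of_dvd p2 _ v hd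
    have a2 := pad_int_le_one p2 b
    have a3 := pad_int_le_one p3 b
    have a4 := pad_le_of_dvd p3 (3 ^ j * n) j (Dvd.intro _ rfl)
    rw [Finset.prod_pair hne]
    simp only [Fin.prod_univ_two, Fin.sum_univ_two, if_neg hne.symm, if_true, Matrix.of_apply,
      Matrix.cons_val', Matrix.cons_val_zero, Matrix.cons_val_one, Matrix.cons_val_fin_one,
      Matrix.one_apply_eq, Matrix.one_apply_ne (show (0 : Fin 2) ≠ 1 by decide),
      Matrix.one_apply_ne (show (1 : Fin 2) ≠ 0 by decide), one_mul, zero_mul, add_zero, zero_add,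
      neg_mul, ← sub_eq_add_neg]
    calc _ ≤ |(b : ℝ)| * |((3 ^ j * n : ℤ) : ℝ)| * (((2 : ℝ) ^ v)⁻¹ * 1 * (1 * ((3 : ℝ) ^ j)⁻¹)) := by
          gcongr
          · exact_mod_cast a1
          · exact_mod_cast a4
      _ = |(b : ℝ)| * |(n : ℝ)| * exp (ε * N) / 2 ^ v * exp (-(ε * N)) := by
          push_cast
          rw [abs_mul, abs_of_pos (by positivity : (0 : ℝ) < 3 ^ j), exp_neg]
          field_simp
      _ ≤ _ := mul_le_of_le_one_left (exp_pos _).le ((div_le_one (by positivity)).2 hlt.le)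
  · by_contra hcon
    simp only [not_exists, not_lt] at hcon
    simp only [Fin.sum_univ_two, Matrix.cons_val_zero, Matrix.cons_val_one] at hs
    have d3 : (3 : ℤ) ^ j ∣ c 0 * b := ⟨-(c 1 * n), by linarith only [hs]⟩
    have l3 : |c 0 * b| < 3 ^ j := by
      have : |((c 0 * b : ℤ) : ℝ)| < 3 ^ j := by
        push_cast
        rw [abs_mul]
        linarith only [h3, hcon, b1, hcon 0, mul_nonneg_of_nonpos_of_nonpos (Mathlib.Tactic.Linarith.sub_nonpos_of_le b1) (Mathlib.Tactic.Linarith.sub_nonpos_of_le (hcon (0 : Fin (2 : ℕ))))]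
      exact_mod_cast this
    have c0 : c 0 = 0 := (mul_eq_zero.1 (Int.eq_zero_of_abs_lt_dvd d3 l3)).resolve_right hb
    have c1 : c 1 ≠ 0 := fun k => hc (funext fun i => by fin_cases i <;> assumption)
    rw [c0, zero_mul, zero_add] at hs
    rw [(mul_eq_zero.1 hs).resolve_left c1, sub_zero] at hd
    exact hb (Int.eq_zero_of_abs_lt_dvd hd h2)

end Pool.Agent.Work.MP_baf0bc_nt.Zn
end

-- merged part: Pool.Agent.Work.MP_baf0bc_nt.Zn.Eng
section
/-! The counting engine. The seed is a linear function of its parity word, so the Fourier transform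
factors over windows of the word; the frequencies of a window are well spaced (`ridout`), and the
large sieve bounds the contribution of a window by an additive energy. -/

set_option autoImplicit false

open Finset Polynomial Real Filter

namespace Pool.Agent.Work.MP_baf0bc_nt.Zn

open Pool.Agent.Lib.LargeSieve

theorem half_le {H : ℕ} {θ : ℝ} (h0 : 0 ≤ θ) (h : 16 * H * θ ≤ 1) :
    (H : ℝ) / 2 ≤ ‖∑ b ∈ range H, ee (b * θ)‖ := by
  have h1 : ‖∑ b ∈ range H, (1 - ee (b * θ))‖ ≤ ∑ _b ∈ range H, (1 / 2 : ℝ) := by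
    refine norm_sum_le_of_le _ fun b hb => ?_
    have : (b : ℝ) * θ ≤ H * θ :=
      mul_le_mul_of_nonneg_right (Nat.cast_le.2 (mem_range.1 hb).le) h0
    rw [norm_sub_rev]
    refine Real.norm_exp_I_mul_ofReal_sub_one_le.trans ?_
    rw [Real.norm_of_nonneg (by positivity)]
    linarith only [h, this, pi_le_four, pi_pos, mul_nonneg (Nat.cast_nonneg (α := ℝ) b) h0, mul_nonneg_of_nonpos_of_nonpos (Mathlib.Tactic.Linarith.sub_nonpos_of_le h) (le_of_lt (Mathlib.Tactic.Linarith.sub_neg_of_lt pi_pos)), mul_nonneg_of_nonpos_of_nonpos (Mathlib.Tactic.Linarith.sub_nonpos_of_le this) (le_of_lt (Mathlib.Tactic.Linarith.sub_neg_of_lt pi_pos))]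
  rw [sum_sub_distrib] at h1
  have h2 := norm_sub_norm_le (∑ _b ∈ range H, (1 : ℂ)) (∑ b ∈ range H, ee (b * θ))
  simp only [sum_const, card_range, nsmul_eq_mul, mul_one, Complex.norm_natCast] at h1 h2
  linarith only [h1, h2]

theorem ee_sum {κ : Type} (s : Finset κ) (a : κ → ℝ) : ee (∑ l ∈ s, a l) = ∏ l ∈ s, ee (a l) := by
  classical
  induction s using Finset.induction_on with
  | empty => simp
  | insert i s hi ih => rw [sum_insert hi, prod_insert hi, ee_add, ih]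

theorem major {κ : Type} [Fintype κ] [DecidableEq κ] (Z : Finset ℕ) (f : ℕ → κ → ℕ)
    (hf : Set.InjOn f Z) (P : κ → ℕ[X]) (hP : ∀ x ∈ Z, ∀ l, (P l).coeff (f x l) ≠ 0) (α : κ → ℝ)
    (H : ℕ) (h : ∀ x ∈ Z, (H : ℝ) / 2 ≤ ‖∑ b ∈ range H, ee (b * ∑ l, α l * f x l)‖) :
    Z.card * ((H : ℝ) / 2) ^ 2 ≤ ∑ b' ∈ range H, ∑ b ∈ range H,
      ∏ l, ‖aeval (ee (((b : ℝ) - b') * α l)) (P l)‖ := by
  let G : (κ → ℕ) → ℝ := fun y => ‖∑ b ∈ range H, ee (b * ∑ l, α l * y l)‖ ^ 2
  let W : (κ → ℕ) → ℕ := fun y => ∏ l, (P l).coeff (y l)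
  let S := Fintype.piFinset fun l => (P l).support
  have h1 : Z.card * ((H : ℝ) / 2) ^ 2 ≤ ∑ y ∈ S, W y * G y := by
    rw [← nsmul_eq_mul]
    refine (card_nsmul_le_sum Z (fun x => G (f x)) _ fun x hx =>
      pow_le_pow_left₀ (by positivity) (h x hx) 2).trans ?_
    rw [← sum_image hf]
    refine (sum_le_sum_of_subset_of_nonneg (t := S) (fun y hy => ?_) fun y _ _ =>
      sq_nonneg _).trans (sum_le_sum fun y hy => le_mul_of_one_le_left (sq_nonneg _) ?_)
    · obtain ⟨x, hx, rfl⟩ := mem_image.1 hy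
      exact Fintype.mem_piFinset.2 fun l => mem_support_iff.2 (hP x hx l)
    · exact Nat.one_le_cast.2 (Finset.one_le_prod' fun l _ =>
        Nat.pos_of_ne_zero (mem_support_iff.1 (Fintype.mem_piFinset.1 hy l)))
  have h2 : ((∑ y ∈ S, W y * G y : ℝ) : ℂ) = ∑ b' ∈ range H, ∑ b ∈ range H,
      ∏ l, aeval (ee (((b : ℝ) - b') * α l)) (P l) := by
    simp only [aeval_def, eval₂_eq_sum, sum_def, prod_univ_sum, G, W, Complex.ofReal_sum,
      Complex.ofReal_mul, normSq_sum_eq, mul_sum]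
    rw [sum_comm]
    simp only [sum_comm (s := S)]
    rw [sum_comm]
    refine sum_congr rfl fun b' _ => sum_congr rfl fun b _ => sum_congr rfl fun y _ => ?_
    rw [prod_mul_distrib, conj_ee, ← ee_add, ← sub_eq_add_neg, ← sum_sub_distrib, ee_sum]
    simp only [← ee_nat_mul, Complex.ofReal_prod, Complex.ofReal_natCast, Nat.cast_prod, eq_natCast]
    exact congrArg _ (prod_congr rfl fun l _ => congrArg ee (by ring))
  refine h1.trans ((le_abs_self _).trans ?_)
  rw [← Real.norm_eq_abs, ← Complex.norm_real, h2]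
  exact norm_sum_le_of_le _ fun b' _ => norm_sum_le_of_le _ fun b _ => (norm_prod _ _).le

theorem pow_inv {g : ℤ} {v : ℕ} (hg : (2 : ℤ) ^ v ∣ 3 * g - 1) (n : ℕ) :
    (2 : ℤ) ^ v ∣ 3 ^ n * g ^ n - 1 := by
  simpa only [mul_pow, one_pow] using hg.trans (sub_dvd_pow_sub_pow (3 * g) 1 n)

theorem ee_step {g : ℤ} {n v : ℕ} (hg : (2 : ℤ) ^ (n + v) ∣ 3 * g - 1) (c : ℤ) (y : ℕ) :
    ee (c * y / 2 ^ (n + v)) =
      ee (c * (-g ^ n / 2 ^ (n + v) * sg n y)) * ee (c * g ^ n * T^[n] y / 2 ^ v) := by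
  obtain ⟨z, hz⟩ := pow_inv hg n
  rw [← ee_add, ← ee_add_int _ (c * y * z)]
  refine congrArg ee ?_
  have h1 : (3 : ℝ) ^ n * g ^ n - 1 = 2 ^ (n + v) * z := by exact_mod_cast hz
  have h2 : (2 : ℝ) ^ n * T^[n] y = 3 ^ n * y + sg n y := by exact_mod_cast sg_spec n y
  rw [pow_add] at h1 ⊢
  push_cast
  field_simp
  linear_combination -c * y * h1 - c * g ^ n * h2

theorem ee_win {g : ℤ} {w k : ℕ} (hg : (2 : ℤ) ^ k ∣ 3 * g - 1) (c : ℤ) (y : ℕ) (l : ℕ)
    (hl : l * w ≤ k) : ee (c * y / 2 ^ k) = (∏ i ∈ range l,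
      ee (c * (-g ^ ((i + 1) * w) / 2 ^ (k - i * w) * sg w (T^[i * w] y)))) *
        ee (c * g ^ (l * w) * T^[l * w] y / 2 ^ (k - l * w)) := by
  induction l with
  | zero => simp
  | succ l ih =>
    rw [add_one_mul] at hl
    have e : k - l * w = w + (k - (l + 1) * w) := by
      rw [add_one_mul]
      omega
    have := ee_step (n := w) (v := k - (l + 1) * w)
      ((pow_dvd_pow 2 (by omega)).trans hg) (c * g ^ (l * w)) (T^[l * w] y)
    rw [← e, ← Function.iterate_add_apply, add_comm w, ← add_one_mul] at this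
    push_cast at this
    rw [ih (by omega), prod_range_succ, this, mul_assoc (∏ _ ∈ _, _)]
    refine congrArg _ (congrArg₂ _ (congrArg ee ?_) (congrArg ee ?_)) <;>
      rw [add_one_mul, pow_add] <;> ring

theorem norm_aeval_le (P : ℕ[X]) (t : ℝ) : ‖aeval (ee t) P‖ ≤ (P.eval 1 : ℕ) := by
  rw [aeval_def, eval₂_eq_sum, eval_eq_sum, sum_def, sum_def, Nat.cast_sum]
  exact norm_sum_le_of_le _ fun n _ => by simp

theorem window {P : ℕ[X]} {r D H : ℕ} (hD : 0 < D) (hP : P.natDegree ≤ D) {α : ℝ}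
    (h : ∀ β : ℤ, β ≠ 0 → |β| < H → 1 / (D : ℝ) ≤ dZ (β * α)) (b' : ℝ) :
    ∑ b ∈ range H, ‖aeval (ee ((b - b') * α)) P‖ ^ (2 * r) ≤
      ((r * D + 1 : ℕ) + D * HH D) * J 0 (P ^ r) (P ^ r) := by
  have hd : (P ^ r).natDegree < r * D + 1 :=
    Nat.lt_succ_of_le (natDegree_pow_le.trans (Nat.mul_le_mul_left r hP))
  have := largeSieve (range H) (fun b => (b - b') * α) D hD (fun j hj k hk e => by
    have := h (j - k) (by omega) (by
      rw [mem_range] at hj hk
      exact abs_lt.2 ⟨by omega, by omega⟩)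
    rwa [← sub_mul, sub_sub_sub_cancel_right, ← Int.cast_natCast j, ← Int.cast_natCast k,
      ← Int.cast_sub]) (r * D + 1) fun n => (P ^ r).coeff n
  rw [J_zero hd]
  simpa only [pow_mul', ← norm_pow, ← map_pow, aeval_eq_sum_range' hd, ee_nat_mul, nsmul_eq_mul,
    Complex.norm_natCast, Nat.cast_sum, Nat.cast_mul, sq] using this

theorem spaced {g : ℤ} {j v : ℕ} (hg : (2 : ℤ) ^ v ∣ 3 * g - 1) {β : ℤ} {E D : ℝ} (hD : 0 < D)
    (hβ : |(β : ℝ)| * E ≤ D)
    (h : ∀ n : ℤ, (2 : ℤ) ^ v ∣ β - 3 ^ j * n → (2 : ℝ) ^ v ≤ |(β : ℝ)| * |(n : ℝ)| * E) :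
    1 / D ≤ dZ (β * (-g ^ j / 2 ^ v)) := by
  unfold dZ
  generalize round ((β : ℝ) * (-g ^ j / 2 ^ v)) = m
  have h1 := h (β * g ^ j + m * 2 ^ v) (by
    rw [show β - 3 ^ j * (β * g ^ j + m * 2 ^ v) =
      -β * (3 ^ j * g ^ j - 1) - 3 ^ j * m * 2 ^ v by ring]
    exact ((pow_inv hg j).mul_left _).sub (Dvd.intro_left _ rfl))
  have e : (β : ℝ) * (-g ^ j / 2 ^ v) - m = -((β * g ^ j + m * 2 ^ v : ℤ) / 2 ^ v) := by
    push_cast
    field_simp
    ring
  rw [e, abs_neg, abs_div, abs_of_pos (by positivity : (0 : ℝ) < 2 ^ v),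
    div_le_div_iff₀ hD (by positivity)]
  linarith only [h1, hβ, mul_le_mul_of_nonneg_left hβ (abs_nonneg ((β * g ^ j + m * 2 ^ v : ℤ) : ℝ))]

theorem prod_le_sum_pow {m : ℕ} (hm : 0 < m) (x : Fin m → ℝ) (hx : ∀ l, 0 ≤ x l) :
    ∏ l, x l ≤ ∑ l, x l ^ m := by
  obtain ⟨i, -, hi⟩ := exists_max_image univ x ⟨⟨0, hm⟩, mem_univ _⟩
  refine (prod_le_prod (fun l _ => hx l) hi).trans ?_
  rw [prod_const, card_univ, Fintype.card_fin]
  exact single_le_sum (f := fun l => x l ^ m) (fun l _ => pow_nonneg (hx l) m) (mem_univ i)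

theorem engine {r : ℕ} (hr : 0 < r) {ε : ℝ} (hε : 0 < ε) : ∀ᶠ w : ℕ in atTop,
    ∀ (t : ℕ) (P P' : ℕ[X]) (Z : Finset ℕ), t ≤ 3 * w → 3 ^ w ≤ 2 ^ (w + t) → P.natDegree ≤ 3 ^ w →
      (∀ x ∈ Z, 16 * 3 ^ w * x ≤ 2 ^ (2 * r * w + t) ∧
        (∀ l < 2 * r, P.coeff (sg w (T^[l * w] x)) ≠ 0) ∧ P'.coeff (sg t (T^[2 * r * w] x)) ≠ 0) →
      (Z.card : ℝ) ≤ exp (ε * w) * (P'.eval 1 : ℕ) * J 0 (P ^ r) (P ^ r) := by
  have big : ∀ᶠ w : ℕ in atTop, 8 * r * (r + 4) * (w : ℝ) ≤ exp (ε / 2 * w) := by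
    filter_upwards [tendsto_natCast_atTop_atTop.eventually_ge_atTop
      (8 * r * (r + 4) / ((ε / 2) ^ 2 / 2) : ℝ)] with w hw
    rw [div_le_iff₀ (by positivity)] at hw
    have h0 : (0 : ℝ) ≤ w := Nat.cast_nonneg w
    linarith only [hε, hw, h0, quadratic_le_exp_of_nonneg (x := ε / 2 * w) (by positivity),
      mul_le_mul_of_nonneg_right hw h0, mul_nonneg hε.le h0]
  filter_upwards [ridout (2 * r + 3) (half_pos hε), big, eventually_ge_atTop 1] with
    w hR hbig w1 t P P' Z ht h3 hP hZ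
  obtain ⟨k, hk⟩ : ∃ k, k = 2 * r * w + t := ⟨_, rfl⟩
  rw [← hk] at hZ
  obtain ⟨g, g', hg'⟩ : IsCoprime (3 : ℤ) (2 ^ k) := IsCoprime.pow_right (by decide)
  have hg : (2 : ℤ) ^ k ∣ 3 * g - 1 := ⟨-g', by linarith only [hg']⟩
  obtain ⟨E, hE⟩ : ∃ E, E = exp (ε / 2 * w) := ⟨_, rfl⟩
  have E1 : 1 ≤ E := hE ▸ one_le_exp (by positivity)
  obtain ⟨H, hH⟩ : ∃ H, H = ⌈3 ^ w / E⌉₊ := ⟨_, rfl⟩
  have H1 : (3 : ℝ) ^ w ≤ H * E := (div_le_iff₀ (by positivity)).1 (hH ▸ Nat.le_ceil _)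
  have H2 : H ≤ 3 ^ w := hH ▸ Nat.ceil_le.2 (by
    push_cast
    exact div_le_self (by positivity) E1)
  have H3 : ∀ β : ℤ, |β| < H → |(β : ℝ)| * E < 3 ^ w := fun β hβ => by
    have h1 : ((|β| + 1 : ℤ) : ℝ) ≤ (H : ℤ) := Int.cast_le.2 hβ
    have h2 := Nat.ceil_lt_add_one (a := 3 ^ w / E) (by positivity)
    push_cast at h1
    exact (lt_div_iff₀ (by positivity)).1 (by linarith only [h1, h2, hH, hH ▸ h2])
  let f : ℕ → Option (Fin (2 * r)) → ℕ := fun x o =>
    o.elim (sg t (T^[2 * r * w] x)) fun l => sg w (T^[l * w] x)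
  let α : Option (Fin (2 * r)) → ℝ := fun o =>
    o.elim (g ^ (2 * r * w) * (-g ^ t / 2 ^ t)) fun l => -g ^ ((l + 1) * w) / 2 ^ (k - l * w)
  have ph : ∀ (c : ℤ) (x : ℕ), ee (c * ∑ o, α o * f x o) = ee (c * (x / 2 ^ k)) := fun c x => by
    have h1 := ee_step (n := t) (v := 0) ((pow_dvd_pow 2 (by omega)).trans hg)
      (c * g ^ (2 * r * w)) (T^[2 * r * w] x)
    rw [add_zero, pow_zero, div_one, ← Int.cast_pow, ← Int.cast_natCast (T^[t] _), ← Int.cast_mul,
      ← Int.cast_mul, ee_intCast, mul_one] at h1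
    push_cast at h1
    rw [← mul_div_assoc, ee_win (w := w) hg c x (2 * r) (by omega), show k - 2 * r * w = t by omega, h1,
      mul_sum, ee_sum, Fintype.prod_option, prod_range, mul_comm]
    exact congrArg _ (congrArg ee (by simp only [α, f, Option.elim]; ring))
  have sm : ∀ x ∈ Z, 16 * 3 ^ w * ((x : ℝ) / 2 ^ k) ≤ 1 := fun x hx => by
    rw [← mul_div_assoc, div_le_one (by positivity)]
    exact_mod_cast (hZ x hx).1
  have p3 : (1 : ℝ) ≤ 3 ^ w := one_le_pow₀ (by norm_num)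
  have key := major Z f (fun x hx y hy e => ?_) (fun o => o.elim P' fun _ => P)
    (fun x hx o => ?_) α H fun x hx => ?_
  · have w1' : (1 : ℝ) ≤ w := Nat.one_le_cast.2 w1
    obtain ⟨B, hB⟩ : ∃ B : ℝ, B = (r + 4) * w * 3 ^ w * J 0 (P ^ r) (P ^ r) := ⟨_, rfl⟩
    have h1 : ∀ (l : Fin (2 * r)) (b' : ℝ),
        ∑ b ∈ range H, ‖aeval (ee ((b - b') * α (some l))) P‖ ^ (2 * r) ≤ B := fun l b' => by
      have hl : (l + 1) * w ≤ 2 * r * w := Nat.mul_le_mul_right w l.2
      have hl' := add_one_mul l.1 w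
      refine (window (by positivity) hP (fun β b0 hβ => ?_) b').trans ?_
      · refine spaced ((pow_dvd_pow 2 (by omega)).trans hg) (E := E) (by positivity)
          (by exact_mod_cast (H3 β hβ).le) fun n hn => hE ▸ hR _ _ β n (by linarith only [w1, hl])
          (by rw [add_mul]; omega) b0 (hE ▸ (H3 β hβ).trans_le
            (pow_le_pow_right₀ (by norm_num) (by omega))) (hβ.trans_le ?_) hn
        exact_mod_cast H2.trans (h3.trans (Nat.pow_le_pow_right two_pos (by omega)))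
      · rw [hB]
        refine mul_le_mul_of_nonneg_right ?_ (Nat.cast_nonneg _)
        have h2 := HH_le (3 ^ w)
        have h4 := log_le_sub_one_of_pos (x := 3) (by norm_num)
        push_cast at h2 ⊢
        rw [log_pow] at h2
        have h5 : HH (3 ^ w) ≤ 3 * w := by linarith only [w1', h2, h4, mul_nonneg_of_nonpos_of_nonpos (Mathlib.Tactic.Linarith.sub_nonpos_of_le (Mathlib.Tactic.Linarith.natCast_nonneg ℝ w)) (Mathlib.Tactic.Linarith.sub_nonpos_of_le h4)]
        linarith only [h5, w1', p3, w1, hr, mul_le_mul_of_nonneg_left h5 (by positivity : (0 : ℝ) ≤ 3 ^ w),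
          mul_le_mul w1' p3 zero_le_one (by positivity), mul_le_mul_of_nonneg_right w1'
            (by positivity : (0 : ℝ) ≤ r * 3 ^ w)]
    have h2 : Z.card * ((H : ℝ) / 2) ^ 2 ≤ H * ((P'.eval 1 : ℕ) * (2 * r * B)) := by
      refine key.trans ((sum_le_card_nsmul _ _ ((P'.eval 1 : ℕ) * (2 * r * B)) fun b' _ => ?_).trans
        (by rw [card_range, nsmul_eq_mul]))
      calc _ ≤ ∑ b ∈ range H, ((P'.eval 1 : ℕ) : ℝ) * ∑ l : Fin (2 * r),
            ‖aeval (ee ((b - b') * α (some l))) P‖ ^ (2 * r) := sum_le_sum fun b _ => by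
            rw [Fintype.prod_option]
            exact mul_le_mul (norm_aeval_le _ _) (prod_le_sum_pow (by omega) _
              fun _ => norm_nonneg _) (prod_nonneg fun _ _ => norm_nonneg _) (Nat.cast_nonneg _)
        _ ≤ _ := by
            rw [← mul_sum, sum_comm]
            refine mul_le_mul_of_nonneg_left ((sum_le_card_nsmul _ _ B fun l _ => h1 l b').trans
              (by simp)) (Nat.cast_nonneg _)
    have H0 : (0 : ℝ) < H := (mul_pos_iff_of_pos_right (by linarith only [E1] : 0 < E)).1 (by linarith only [H1, p3])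
    rw [show exp (ε * w) = E * E by rw [hE, ← exp_add]; ring_nf]
    rw [← hE] at hbig
    refine le_of_mul_le_mul_right ?_ (by positivity : (0 : ℝ) < (H / 2) ^ 2)
    refine h2.trans ?_
    rw [hB]
    calc _ = (8 * r * (r + 4) * w * 3 ^ w) * (H * (P'.eval 1 : ℕ) * J 0 (P ^ r) (P ^ r) / 4 : ℝ) := by
          ring
      _ ≤ (E * (H * E)) * (H * (P'.eval 1 : ℕ) * J 0 (P ^ r) (P ^ r) / 4 : ℝ) := by gcongr
      _ = _ := by ring
  · have h1 : ee (x / 2 ^ k - y / 2 ^ k) = 1 := by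
      have a := ph 1 x
      have b := ph 1 y
      rw [e, b, Int.cast_one, one_mul, one_mul] at a
      rw [sub_eq_add_neg, ee_add, ← a, ← ee_add, add_neg_cancel, ee_zero]
    have h2 := four_dZ_le (x / 2 ^ k - y / 2 ^ k)
    have h4 := sm x hx
    have h5 := sm y hy
    have h6 : (0 : ℝ) ≤ x / 2 ^ k := by positivity
    have h7 : (0 : ℝ) ≤ y / 2 ^ k := by positivity
    rw [h1, sub_self, norm_zero, dZ, round_eq_zero_iff.2 ⟨by linarith only [h5, h6, p3, h7, mul_nonneg_of_nonpos_of_nonpos (Mathlib.Tactic.Linarith.sub_nonpos_of_le p3) (Mathlib.Tactic.Linarith.sub_nonpos_of_le h7)], by linarith only [h4, h7, p3, h6, mul_nonneg_of_nonpos_of_nonpos (Mathlib.Tactic.Linarith.sub_nonpos_of_le p3) (Mathlib.Tactic.Linarith.sub_nonpos_of_le h6)]⟩,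
      Int.cast_zero, sub_zero] at h2
    have h8 := sub_eq_zero.1 (abs_nonpos_iff.1 (by linarith only [h2] : |(x : ℝ) / 2 ^ k - y / 2 ^ k| ≤ 0))
    exact_mod_cast (div_left_inj' (by positivity)).1 h8
  · cases o with
    | none => exact (hZ x hx).2.2
    | some l => exact (hZ x hx).2.1 l l.2
  · rw [sum_congr rfl fun (b : ℕ) _ => by simpa only [Int.cast_natCast] using ph b x]
    refine half_le (by positivity) (le_trans ?_ (sm x hx))
    gcongr
    exact_mod_cast H2

end Pool.Agent.Work.MP_baf0bc_nt.Zn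
end
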